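import Pool.Agent.TH584.HU.Fld

/-!
# Project HU, piece C7: a calibration near the vertex `1`
-/

set_option autoImplicit false

open MeasureTheory Set Metric Filter Topology
open scoped ENNReal Real

noncomputable section

namespace Pool.Agent.TH584.HU

open Pool.Agent.TH304.MI Pool.Agent.TH703.HU

theorem YY_contDiff (c0 : S_C0) {m : ℕ} (hm : 1 ≤ m) {ε η : ℝ} (hε : 0 < ε) (hη : 0 < η)
    {Y1 : ℂ → ℂ} (hY : TW (wt m) Y1) : ContDiff ℝ 1 (YY m η ε Y1) :=
  ((contDiff_const.sub (ch_contDiff m hη)).smul hY.cd).sub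
    (((ch_contDiff m hη).mul (WW_contDiff c0 hm hε)).smul XF_contDiff)

theorem YY_TW (c0 : S_C0) {m : ℕ} (hm : 1 ≤ m) {ε η : ℝ} (hε : 0 < ε) (hη : 0 < η)
    {Y1 : ℂ → ℂ} (hY : TW (wt m) Y1) : TW (wt m) (YY m η ε Y1) := by
  obtain ⟨-, hcw, hw0, -, hD, hc, -⟩ := c0 m hm
  refine ⟨YY_contDiff c0 hm hε hη hY, ?_, ?_, ?_⟩
  · refine HasCompactSupport.intro (K := KC m ∪ tsupport Y1) ((KC_compact m).union hY.cs) ?_
    intro x hx
    simp only [mem_union, not_or] at hx
    unfold YY
    rw [ch_zero_off hm η hx.1, image_eq_zero_of_notMem_tsupport hx.2]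
    simp
  · have hcl : IsClosed (tsupport Y1 ∪ {x | ε ≤ wt m x}) :=
      (isClosed_tsupport _).union (isClosed_le continuous_const hcw)
    have h1 : tsupport (YY m η ε Y1) ⊆ tsupport Y1 ∪ {x | ε ≤ wt m x} := by
      refine closure_minimal ?_ hcl
      intro x hx
      by_contra h
      simp only [mem_union, mem_setOf_eq, not_or, not_le] at h
      refine hx ?_
      unfold YY WW H
      rw [q_of_nonpos (by linarith), image_eq_zero_of_notMem_tsupport h.1]
      simp
    intro x hx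
    rcases h1 hx with h | h
    · exact hY.sub h
    · exact lt_of_lt_of_le hε h
  · intro x
    have a0 := ch_nonneg m hη x
    have a1 := ch_le_one m hη x
    have a2 : WW m ε x ≤ wt m x := H_le hε.le (hw0 x)
    have a3 : 0 ≤ WW m ε x := H_nonneg _ (hw0 x)
    calc ‖YY m η ε Y1 x‖ ≤ ‖(1 - ch m η x) • Y1 x‖ + ‖(ch m η x * WW m ε x) • XF x‖ := norm_sub_le _ _
      _ = (1 - ch m η x) * ‖Y1 x‖ + ch m η x * WW m ε x := by
          rw [norm_smul, norm_smul, XF_norm, Real.norm_of_nonneg (by linarith),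
            Real.norm_of_nonneg (by positivity), mul_one]
      _ ≤ (1 - ch m η x) * wt m x + ch m η x * wt m x :=
          add_le_add (mul_le_mul_of_nonneg_left (hY.le x) (by linarith))
            (mul_le_mul_of_nonneg_left a2 a0)
      _ = wt m x := by ring

theorem strip {m : ℕ} (hm : 1 ≤ m) {η : ℝ} {x : ℂ}
    (hx : x ∉ {x : ℂ | |x.re - (1 / 2 + 1 / 20 / √m)| < 1 / 100 / √m ∧ |x.im| < 1 / 4}) :
    th η (ll m x) * dz m x = 0 := by
  by_cases h1 : 1 / 100 / √m ≤ |x.re - s0 m|
  · rw [dz_zero hm h1, mul_zero]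
  · have h2 : |x.re - s0 m| < 1 / 100 / √m := not_le.1 h1
    have h3 : ¬ |x.im| < 1 / 4 := fun h => hx ⟨h2, h⟩
    have h4 : ll m x ≤ 0 := by
      by_contra h
      exact h3 (im_small hm (not_le.1 h) (by have := (abs_lt.1 h2).1; linarith))
    rw [th_of_nonpos h4, zero_mul]

theorem ineq1 (c0 : S_C0) {m : ℕ} (hm : 1 ≤ m) {η : ℝ} (hη : 0 < η) {Λ : ℝ}
    (hΛ : 0 ≤ Λ) (hbig : 20 * (Λ + 22) ≤ √(m : ℝ)) {Y1 : ℂ → ℂ} (hY : TW (wt m) Y1) {A : Set ℂ}
    (hA : MeasurableSet A) {P : ℝ} (hP : PW (wt m) A P)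
    (hn : volume (A ∩ {x : ℂ | |x.re - (1 / 2 + 1 / 20 / √m)| < 1 / 100 / √m ∧ |x.im| < 1 / 4}) = 0) :
    ∫ x in A, ((1 - ch m η x) * dv2 Y1 x + (Λ + 1) * (ch m η x * wt m x)) ≤ P := by
  obtain ⟨-, hcw, hw0, -, hD, hc, -⟩ := c0 m hm
  have hchc : Continuous (ch m η) := (ch_contDiff m hη).continuous
  have hdY := dv2_continuous hY.cd
  have hdYc := dv2_hasCompactSupport hY.cs
  have him : Continuous fun x : ℂ => x.im := Complex.continuous_im
  have hztc : Continuous (zt m) := (zt_contDiff m).continuous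
  have hllc : Continuous (ll m) := (ll_contDiff m).continuous
  have hnnc := nn_continuous
  have hdthc := dth_continuous hη
  -- integrability
  have hf1 : Integrable fun x : ℂ => (1 - ch m η x) * dv2 Y1 x + (Λ + 1) * (ch m η x * wt m x) := by
    refine Continuous.integrable_of_hasCompactSupport (by fun_prop) ?_
    refine HasCompactSupport.intro (K := KC m ∪ tsupport Y1) ((KC_compact m).union hY.cs) ?_
    intro x hx
    simp only [mem_union, not_or] at hx
    rw [ch_zero_off hm η hx.1, dv2_zero_of_not_mem hx.2]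
    simp
  set B : ℂ → ℝ := fun x => (Λ + 1) * ch m η x + nn x.im * (zt m x * dth η (ll m x)) with hB
  have hf2 : Integrable B := by
    refine Continuous.integrable_of_hasCompactSupport (by fun_prop) ?_
    refine HasCompactSupport.intro (K := KC m) (KC_compact m) ?_
    intro x hx
    have h1 : zt m x * dth η (ll m x) = 0 := by
      by_contra h
      rcases not_or.1 (mt mul_eq_zero.2 h) with ⟨h1, h2⟩
      refine hx (mem_KC hm ?_ h1)
      by_contra h3
      exact h2 (dth_of_nonpos (not_lt.1 h3))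
    simp only [hB]
    rw [ch_zero_off hm η hx, h1]
    simp
  -- the inequality with an error
  have key : ∀ ε : ℝ, 0 < ε →
      ∫ x in A, ((1 - ch m η x) * dv2 Y1 x + (Λ + 1) * (ch m η x * wt m x)) ≤
        P + ε * (2 * ∫ x in A, B x) := by
    intro ε hε
    have hT := YY_TW c0 hm hε hη hY
    have h1 := hP _ hT
    have h2 : ∫ x in A, (((1 - ch m η x) * dv2 Y1 x + (Λ + 1) * (ch m η x * wt m x)) -
        2 * ε * B x) ≤ ∫ x in A, dv2 (YY m η ε Y1) x := by
      refine integral_mono_ae (hf1.sub (hf2.const_mul (2 * ε))).integrableOn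
        (dv2_integrable hT.cd hT.cs).integrableOn ?_
      have hae : ∀ᵐ x ∂(volume.restrict A), x ∉ {x : ℂ | |x.re - (1 / 2 + 1 / 20 / √m)| < 1 / 100 / √m
          ∧ |x.im| < 1 / 4} := by
        rw [ae_iff]
        simp only [not_not]
        rw [Measure.restrict_apply' hA, inter_comm]
        exact hn
      filter_upwards [hae] with x hx
      have := pt c0 hm hε hη hΛ hbig hY (strip hm hx)
      simp only [hB]
      linarith
    rw [integral_sub hf1.integrableOn (hf2.const_mul (2 * ε)).integrableOn,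
      integral_const_mul] at h2
    linarith
  set K := 2 * ∫ x in A, B x
  refine le_of_forall_pos_le_add fun δ hδ => ?_
  have h1 := key (δ / (|K| + 1)) (by positivity)
  have h2 : δ / (|K| + 1) * K ≤ δ := by
    rw [div_mul_eq_mul_div, div_le_iff₀ (by positivity)]
    nlinarith [le_abs_self K, abs_nonneg K]
  linarith

/-- The calibrated region. -/
def SS (m : ℕ) : Set ℂ := {x | 0 < ll m x ∧ s0 m < x.re}

theorem SS_meas (m : ℕ) : MeasurableSet (SS m) := by
  have h1 : IsOpen {x : ℂ | 0 < ll m x} := isOpen_lt continuous_const (ll_contDiff m).continuous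
  have h2 : IsOpen {x : ℂ | s0 m < x.re} := isOpen_lt continuous_const Complex.continuous_re
  exact (h1.inter h2).measurableSet

theorem ineq2 (c0 : S_C0) {m : ℕ} (hm : 1 ≤ m) {Λ : ℝ}
    (hΛ : 0 ≤ Λ) (hbig : 20 * (Λ + 22) ≤ √(m : ℝ)) {Y1 : ℂ → ℂ} (hY : TW (wt m) Y1) {A : Set ℂ}
    (hA : MeasurableSet A) {P : ℝ} (hP : PW (wt m) A P)
    (hn : volume (A ∩ {x : ℂ | |x.re - (1 / 2 + 1 / 20 / √m)| < 1 / 100 / √m ∧ |x.im| < 1 / 4}) = 0) :
    (∫ x in A \ SS m, dv2 Y1 x) + (Λ + 1) * mu (wt m) (A ∩ SS m) ≤ P := by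
  obtain ⟨-, hcw, hw0, -, hD, hc, hiw, -⟩ := c0 m hm
  have hs : 0 < √(m : ℝ) := Real.sqrt_pos.2 (by exact_mod_cast hm)
  have hdi : Integrable (dv2 Y1) := dv2_integrable hY.cd hY.cs
  have hdY := dv2_continuous hY.cd
  set c : ℂ → ℝ := fun x => (if 0 < ll m x then 1 else 0) * zt m x with hc'
  have hlim : Tendsto (fun n : ℕ => ∫ x in A, ((1 - ch m (1 / ((n : ℝ) + 1)) x) * dv2 Y1 x +
      (Λ + 1) * (ch m (1 / ((n : ℝ) + 1)) x * wt m x))) atTop
      (𝓝 (∫ x in A, ((1 - c x) * dv2 Y1 x + (Λ + 1) * (c x * wt m x)))) := by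
    refine tendsto_integral_of_dominated_convergence (fun x => |dv2 Y1 x| + (Λ + 1) * wt m x)
      ?_ ?_ ?_ ?_
    · intro n
      have hη : 0 < 1 / ((n : ℝ) + 1) := by positivity
      have hchc : Continuous (ch m (1 / ((n : ℝ) + 1))) := (ch_contDiff m hη).continuous
      have : Continuous fun x : ℂ => (1 - ch m (1 / ((n : ℝ) + 1)) x) * dv2 Y1 x +
        (Λ + 1) * (ch m (1 / ((n : ℝ) + 1)) x * wt m x) := by fun_prop
      exact this.aestronglyMeasurable
    · exact (hdi.abs.add (hiw.const_mul _)).integrableOn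
    · intro n
      have hη : 0 < 1 / ((n : ℝ) + 1) := by positivity
      refine Eventually.of_forall fun x => ?_
      have a0 := ch_nonneg m hη x
      have a1 := ch_le_one m hη x
      have a2 := hw0 x
      rw [Real.norm_eq_abs]
      refine (abs_add_le _ _).trans (add_le_add ?_ ?_)
      · rw [abs_mul, abs_of_nonneg (by linarith : 0 ≤ 1 - ch m (1 / ((n : ℝ) + 1)) x)]
        exact mul_le_of_le_one_left (abs_nonneg _) (by linarith)
      · rw [abs_of_nonneg (by positivity)]
        exact mul_le_mul_of_nonneg_left (mul_le_of_le_one_left a2 a1) (by positivity)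
    · refine Eventually.of_forall fun x => ?_
      have h1 : Tendsto (fun n : ℕ => ch m (1 / ((n : ℝ) + 1)) x) atTop (𝓝 (c x)) :=
        (th_tendsto (ll m x)).mul_const (zt m x)
      exact ((tendsto_const_nhds.sub h1).mul_const _).add ((h1.mul_const _).const_mul _)
  have hle : ∫ x in A, ((1 - c x) * dv2 Y1 x + (Λ + 1) * (c x * wt m x)) ≤ P :=
    le_of_tendsto' hlim fun n => ineq1 c0 hm (by positivity) hΛ hbig hY hA hP hn
  have heq : ∫ x in A, ((1 - c x) * dv2 Y1 x + (Λ + 1) * (c x * wt m x)) =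
      ∫ x in A, ((SS m)ᶜ.indicator (dv2 Y1) x + (Λ + 1) * (SS m).indicator (wt m) x) := by
    refine integral_congr_ae ?_
    have hae : ∀ᵐ x ∂(volume.restrict A), x ∉ {x : ℂ | |x.re - (1 / 2 + 1 / 20 / √m)| < 1 / 100 / √m
        ∧ |x.im| < 1 / 4} := by
      rw [ae_iff]
      simp only [not_not]
      rw [Measure.restrict_apply' hA, inter_comm]
      exact hn
    filter_upwards [hae] with x hx
    by_cases hl : 0 < ll m x
    · by_cases h1 : s0 m < x.re
      · have hmem : x ∈ SS m := ⟨hl, h1⟩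
        have e1 : c x = 1 := by simp only [hc', if_pos hl, zt_one h1.le, mul_one]
        rw [e1, indicator_of_mem hmem, indicator_of_notMem (by simpa using hmem)]
        ring
      · have hmem : x ∉ SS m := fun h => h1 h.2
        have h2 : x.re ≤ s0 m - 1 / 100 / √m := by
          by_contra h3
          refine hx ⟨?_, im_small hm hl (not_le.1 h3).le⟩
          have h4 : 0 < 1 / 100 / √(m : ℝ) := by positivity
          exact abs_lt.2 ⟨by have := not_le.1 h3; unfold s0 at this; linarith,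
            by have := not_lt.1 h1; unfold s0 at this; linarith⟩
        have h5 : 1 / 200 / √(m : ℝ) ≤ 1 / 100 / √(m : ℝ) := by gcongr <;> norm_num
        have e1 : c x = 0 := by
          simp only [hc', zt_zero hm (x := x) (by linarith), mul_zero]
        rw [e1, indicator_of_notMem hmem, indicator_of_mem (by simpa using hmem)]
        ring
    · have hmem : x ∉ SS m := fun h => hl h.1
      have e1 : c x = 0 := by simp only [hc', if_neg hl, zero_mul]
      rw [e1, indicator_of_notMem hmem, indicator_of_mem (by simpa using hmem)]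
      ring
  rw [heq, integral_add (hdi.indicator (SS_meas m).compl).integrableOn
    ((hiw.indicator (SS_meas m)).const_mul _).integrableOn, integral_const_mul,
    setIntegral_indicator (SS_meas m).compl, setIntegral_indicator (SS_meas m)] at hle
  exact hle

theorem c7 (c0 : S_C0) (_c1 : S_C1) : S_C7 := by
  intro Λ hΛ
  refine ⟨⌈(20 * (Λ + 22)) ^ 2⌉₊ + 1, ?_⟩
  intro m hm0 v A hA hn
  have hm : 1 ≤ m := by omega
  have hbig : 20 * (Λ + 22) ≤ √(m : ℝ) := by
    refine Real.le_sqrt_of_sq_le ?_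
    have h1 : (20 * (Λ + 22)) ^ 2 ≤ (⌈(20 * (Λ + 22)) ^ 2⌉₊ : ℝ) := Nat.le_ceil _
    have h2 : (⌈(20 * (Λ + 22)) ^ 2⌉₊ : ℝ) ≤ m := by exact_mod_cast (by omega : ⌈(20 * (Λ + 22)) ^ 2⌉₊ ≤ m)
    linarith
  obtain ⟨-, hcw, hw0, -, hD, hc, hiw, -⟩ := id (c0 m hm)
  set S := SS m with hS
  set a := mu (wt m) (A ∩ S) with ha
  have hmu0 : ∀ E : Set ℂ, 0 ≤ mu (wt m) E := fun E => integral_nonneg hw0
  have hsplit : mu (wt m) A = mu (wt m) (A ∩ S) + mu (wt m) (A \ S) :=
    (integral_inter_add_diff (SS_meas m) hiw.integrableOn).symm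
  have hv : 0 ≤ v := (hmu0 A).trans hA.le
  -- a finite bound
  have hP0 : PW (wt m) A (Λ * mu (wt m) A) := by
    have h1 : PW (wt m) ∅ 0 := by intro Y _; simp
    have h2 := hA.min ∅ 0 MeasurableSet.empty (by simpa [mu] using hv) h1
    simpa [mu] using h2
  -- improvement
  have hstep : ∀ P : ℝ, PW (wt m) A P → PW (wt m) A (P - a) := by
    intro P hP
    have h1 : PW (wt m) (A \ S) (P - (Λ + 1) * a) := by
      intro Y hY
      have := ineq2 c0 hm hΛ hbig hY hA.meas hP hn
      linarith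
    have h2 := hA.min (A \ S) _ (hA.meas.diff (SS_meas m)) (by
      have := hmu0 (A ∩ S); have := hA.le; linarith) h1
    have e : P - (Λ + 1) * a + Λ * (mu (wt m) A - mu (wt m) (A \ S)) = P - a := by
      rw [hsplit]; ring
    rwa [e] at h2
  have hiter : ∀ k : ℕ, PW (wt m) A (Λ * mu (wt m) A - k * a) := by
    intro k
    induction k with
    | zero => simpa using hP0
    | succ k ih =>
      have := hstep _ ih
      have e : Λ * mu (wt m) A - k * a - a = Λ * mu (wt m) A - ((k + 1 : ℕ) : ℝ) * a := by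
        push_cast; ring
      rwa [e] at this
  have hz : TW (wt m) fun _ => 0 := by
    refine ⟨contDiff_const, HasCompactSupport.zero, ?_, fun x => by simpa using hw0 x⟩
    have : tsupport (fun _ : ℂ => (0 : ℂ)) = ∅ := by
      rw [tsupport_eq_empty_iff]; rfl
    rw [this]; exact empty_subset _
  have hnn : ∀ k : ℕ, (k : ℝ) * a ≤ Λ * mu (wt m) A := by
    intro k
    have := hiter k _ hz
    have e : ∀ x : ℂ, dv2 (fun _ => (0 : ℂ)) x = 0 := by intro x; simp [dv2]
    simp only [e, integral_zero] at this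
    linarith
  have ha0 : a = 0 := by
    by_contra hne
    have hpos : 0 < a := lt_of_le_of_ne (hmu0 _) (Ne.symm hne)
    obtain ⟨k, hk⟩ := exists_nat_gt (Λ * mu (wt m) A / a)
    rw [div_lt_iff₀ hpos] at hk
    linarith [hnn k]
  -- conclusion
  have h1 : ∀ᵐ x ∂(volume.restrict (A ∩ S)), wt m x = 0 :=
    (integral_eq_zero_iff_of_nonneg (f := wt m) hw0 hiw.integrableOn).1 ha0
  have h2 : volume (A ∩ S ∩ DD) = 0 := by
    rw [ae_iff, Measure.restrict_apply' (hA.meas.inter (SS_meas m))] at h1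
    refine measure_mono_null ?_ h1
    rintro x ⟨hx1, hx2⟩
    refine ⟨?_, hx1⟩
    rw [← hD] at hx2
    exact ne_of_gt hx2
  refine measure_mono_null ?_ h2
  rintro x ⟨⟨hx1, hx2⟩, hx3⟩
  refine ⟨⟨hx1, ?_⟩, hx2⟩
  have hx4 : ‖x - 1‖ < 1 / 20 := by simpa [dist_eq_norm] using hx3
  have hre : |x.re - 1| < 1 / 20 := by
    have := Complex.abs_re_le_norm (x - 1)
    simp only [Complex.sub_re, Complex.one_re] at this
    linarith
  have him : |x.im| < 1 / 20 := by
    have := Complex.abs_im_le_norm (x - 1)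
    simp only [Complex.sub_im, Complex.one_im, sub_zero] at this
    linarith
  have hDD : |x.re| + |x.im| < 1 := hx2
  have h1s : (1 : ℝ) ≤ √(m : ℝ) := Real.one_le_sqrt.2 (by exact_mod_cast hm)
  have h5 : 1 / 20 / √(m : ℝ) ≤ 1 / 20 := div_le_self (by norm_num) h1s
  have h6 : 0 < 1 / 20 / √(m : ℝ) := by positivity
  have h7 : x.re < 1 := by have := le_abs_self x.re; have := abs_nonneg x.im; linarith
  have h8 : x.im ^ 2 ≤ (1 / 20) ^ 2 := by
    have := abs_lt.1 him
    exact sq_le_sq' this.1.le this.2.le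
  refine ⟨?_, ?_⟩
  · unfold ll s0; linarith
  · unfold s0; have := (abs_lt.1 hre).1; linarith

end Pool.Agent.TH584.HU
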