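import Pool.Agent.TH703.HU.Stm

set_option autoImplicit false

open MeasureTheory Set Metric Filter Topology
open scoped ENNReal Real

noncomputable section

namespace Pool.Agent.TH584.HU

open Pool.Agent.TH304.MI Pool.Agent.TH703.HU

/-! ## One-variable functions -/

/-- The squared positive part. -/
def q (t : ℝ) : ℝ := (max t 0) ^ 2

theorem q_nonneg (t : ℝ) : 0 ≤ q t := sq_nonneg _

theorem q_of_nonpos {t : ℝ} (h : t ≤ 0) : q t = 0 := by simp [q, h]

theorem q_pos {t : ℝ} (h : 0 < t) : 0 < q t := by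
  simp only [q, max_eq_left h.le]; positivity

theorem q_hasDerivAt (t : ℝ) : HasDerivAt q (2 * max t 0) t := by
  rcases lt_trichotomy t 0 with h | h | h
  · rw [max_eq_right h.le, mul_zero]
    refine (hasDerivAt_const t (0 : ℝ)).congr_of_eventuallyEq ?_
    filter_upwards [gt_mem_nhds h] with s hs
    exact q_of_nonpos hs.le
  · subst h
    rw [max_self, mul_zero]
    rw [hasDerivAt_iff_isLittleO]
    have : (fun x' : ℝ => q x' - q 0 - (x' - 0) • (0 : ℝ)) = q := by
      ext x; simp [q]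
    rw [this]
    refine Asymptotics.IsBigO.trans_isLittleO (g := fun x : ℝ => x ^ 2) ?_ ?_
    · refine Asymptotics.IsBigO.of_bound 1 (Eventually.of_forall fun x => ?_)
      rw [Real.norm_of_nonneg (q_nonneg x), Real.norm_of_nonneg (sq_nonneg x), one_mul]
      unfold q
      rcases le_total x 0 with h | h
      · rw [max_eq_right h]; nlinarith [sq_nonneg x]
      · rw [max_eq_left h]
    · simp only [sub_zero]
      exact Asymptotics.isLittleO_pow_id (by norm_num)
  · rw [max_eq_left h.le]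
    have h1 : HasDerivAt (fun s : ℝ => s ^ 2) (2 * t) t := by
      simpa using hasDerivAt_pow 2 t
    refine h1.congr_of_eventuallyEq ?_
    filter_upwards [lt_mem_nhds h] with s hs
    simp [q, max_eq_left hs.le]

theorem q_contDiff : ContDiff ℝ 1 q := by
  rw [contDiff_one_iff_deriv]
  refine ⟨fun t => (q_hasDerivAt t).differentiableAt, ?_⟩
  have : deriv q = fun t => 2 * max t 0 := funext fun t => (q_hasDerivAt t).deriv
  rw [this]; fun_prop

/-- A `C¹` approximation of the identity on `[0, ∞)`, vanishing on `[0, ε]`. -/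
def H (ε t : ℝ) : ℝ := q (t - ε) / t

/-- Its derivative for `t > 0`. -/
def h (ε t : ℝ) : ℝ := (2 * max (t - ε) 0 * t - q (t - ε)) / t ^ 2

theorem H_hasDerivAt (ε : ℝ) {t : ℝ} (ht : 0 < t) : HasDerivAt (H ε) (h ε t) t := by
  have h1 : HasDerivAt (fun s => q (s - ε)) (2 * max (t - ε) 0) t := by
    simpa using (q_hasDerivAt (t - ε)).comp_sub_const t ε
  have h2 : HasDerivAt (H ε) _ t := h1.div (hasDerivAt_id' t) ht.ne'
  refine h2.congr_deriv ?_
  unfold h; rw [mul_one]

theorem max_sub_le {ε t : ℝ} (hε : 0 ≤ ε) (ht : 0 ≤ t) : max (t - ε) 0 ≤ t :=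
  max_le (by linarith) ht

theorem H_nonneg (ε : ℝ) {t : ℝ} (ht : 0 ≤ t) : 0 ≤ H ε t := div_nonneg (q_nonneg _) ht

theorem H_le {ε t : ℝ} (hε : 0 ≤ ε) (ht : 0 ≤ t) : H ε t ≤ t := by
  unfold H
  rcases ht.eq_or_lt with rfl | ht
  · simp
  rw [div_le_iff₀ ht]
  have h1 := max_sub_le hε ht.le
  have h2 : 0 ≤ max (t - ε) 0 := le_max_right _ _
  unfold q; nlinarith

theorem le_H {ε t : ℝ} (hε : 0 ≤ ε) (ht : 0 ≤ t) : t - 2 * ε ≤ H ε t := by
  rcases ht.eq_or_lt with rfl | ht
  · simp [H]; linarith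
  rcases le_total t ε with h1 | h1
  · have := H_nonneg ε ht.le; linarith
  · unfold H q
    rw [max_eq_left (by linarith), le_div_iff₀ ht]
    nlinarith [sq_nonneg ε]

theorem h_nonneg {ε t : ℝ} (hε : 0 ≤ ε) (ht : 0 < t) : 0 ≤ h ε t := by
  unfold h
  refine div_nonneg ?_ (by positivity)
  have h1 := max_sub_le hε ht.le
  have h2 : 0 ≤ max (t - ε) 0 := le_max_right _ _
  unfold q; nlinarith

theorem H_le_h {ε t : ℝ} (hε : 0 ≤ ε) (ht : 0 < t) : H ε t ≤ h ε t * t := by
  unfold H h
  rw [div_mul_eq_mul_div, div_le_div_iff₀ ht (by positivity)]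
  have h1 := max_sub_le hε ht.le
  have h2 : 0 ≤ max (t - ε) 0 := le_max_right _ _
  unfold q
  set s := max (t - ε) 0
  have : 0 ≤ (2 * s * t - 2 * s ^ 2) * t ^ 2 := by
    apply mul_nonneg _ (by positivity); nlinarith
  nlinarith

/-- An approximation of the indicator of `(0, ∞)`. -/
def th (η t : ℝ) : ℝ := q t / (q t + η)

/-- Its derivative. -/
def dth (η t : ℝ) : ℝ := 2 * max t 0 * η / (q t + η) ^ 2

theorem th_hasDerivAt {η : ℝ} (hη : 0 < η) (t : ℝ) : HasDerivAt (th η) (dth η t) t := by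
  have h0 : q t + η ≠ 0 := by have := q_nonneg t; positivity
  have h1 : HasDerivAt (th η) _ t := (q_hasDerivAt t).div ((q_hasDerivAt t).add_const η) h0
  refine h1.congr_deriv ?_
  unfold dth; congr 1; ring

theorem th_nonneg {η : ℝ} (hη : 0 < η) (t : ℝ) : 0 ≤ th η t := by
  have := q_nonneg t; unfold th; positivity

theorem th_le_one {η : ℝ} (hη : 0 < η) (t : ℝ) : th η t ≤ 1 := by
  have := q_nonneg t; unfold th; rw [div_le_one (by positivity)]; linarith

theorem dth_nonneg {η : ℝ} (hη : 0 < η) (t : ℝ) : 0 ≤ dth η t := by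
  have := q_nonneg t
  have h2 : 0 ≤ max t 0 := le_max_right _ _
  unfold dth; positivity

theorem th_of_nonpos {η t : ℝ} (h : t ≤ 0) : th η t = 0 := by simp [th, q_of_nonpos h]

theorem dth_of_nonpos {η t : ℝ} (h : t ≤ 0) : dth η t = 0 := by simp [dth, h]

theorem q_continuous : Continuous q := q_contDiff.continuous

theorem th_contDiff {η : ℝ} (hη : 0 < η) : ContDiff ℝ 1 (th η) := by
  unfold th
  exact q_contDiff.div (q_contDiff.add contDiff_const) fun t => by
    have := q_nonneg t; positivity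

theorem dth_continuous {η : ℝ} (hη : 0 < η) : Continuous (dth η) := by
  unfold dth
  have := q_continuous
  refine Continuous.div (by fun_prop) (by fun_prop) fun t => ?_
  have := q_nonneg t; positivity

theorem th_tendsto (t : ℝ) :
    Tendsto (fun n : ℕ => th (1 / ((n : ℝ) + 1)) t) atTop (𝓝 (if 0 < t then 1 else 0)) := by
  split_ifs with h0
  · have h1 := q_pos h0
    have h2 : Tendsto (fun n : ℕ => q t + 1 / ((n : ℝ) + 1)) atTop (𝓝 (q t + 0)) :=
      tendsto_const_nhds.add tendsto_one_div_add_atTop_nhds_zero_nat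
    have h3 := (tendsto_const_nhds (x := q t)).div h2 (by rw [add_zero]; exact h1.ne')
    rw [add_zero, div_self h1.ne'] at h3
    exact h3
  · have : (fun n : ℕ => th (1 / ((n : ℝ) + 1)) t) = fun _ => 0 := by
      ext n; exact th_of_nonpos (not_lt.1 h0)
    rw [this]; exact tendsto_const_nhds

/-! ## The vector field -/

/-- Length of `(1, g y)`, `g y = 125/6 y`. -/
def nn (y : ℝ) : ℝ := √(1 + (125 / 6 * y) ^ 2)

theorem nn_sq (y : ℝ) : nn y ^ 2 = 1 + (125 / 6 * y) ^ 2 := Real.sq_sqrt (by positivity)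

theorem nn_pos (y : ℝ) : 0 < nn y := Real.sqrt_pos.2 (by positivity)

theorem one_le_nn (y : ℝ) : 1 ≤ nn y := by
  have := nn_sq y; have := nn_pos y; nlinarith [sq_nonneg (125 / 6 * y)]

theorem nn_contDiff : ContDiff ℝ 1 nn := by
  unfold nn
  exact ContDiff.sqrt (by fun_prop) fun y => by positivity

theorem nn_continuous : Continuous nn := nn_contDiff.continuous

theorem nn_hasDerivAt (y : ℝ) : HasDerivAt nn ((125 / 6) ^ 2 * y / nn y) y := by
  have h1 : HasDerivAt (fun y : ℝ => 1 + (125 / 6 * y) ^ 2) (2 * (125 / 6) ^ 2 * y) y := by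
    have h0 : HasDerivAt (fun y : ℝ => 125 / 6 * y) (125 / 6) y := by
      simpa using (hasDerivAt_id y).const_mul (125 / 6 : ℝ)
    have := (h0.pow 2).const_add 1
    refine this.congr_deriv ?_
    push_cast; ring
  have h2 : HasDerivAt nn _ y := h1.sqrt (by positivity)
  refine h2.congr_deriv ?_
  rw [show √(1 + (125 / 6 * y) ^ 2) = nn y from rfl]
  have := nn_pos y
  field_simp

/-- First component. -/
def p1 (y : ℝ) : ℝ := 1 / nn y

/-- Second component. -/
def p2 (y : ℝ) : ℝ := 125 / 6 * y / nn y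

theorem p1_contDiff : ContDiff ℝ 1 p1 := by
  unfold p1
  exact contDiff_const.div nn_contDiff fun y => (nn_pos y).ne'

theorem p2_contDiff : ContDiff ℝ 1 p2 := by
  unfold p2
  exact (by fun_prop : ContDiff ℝ 1 fun y : ℝ => 125 / 6 * y).div nn_contDiff fun y => (nn_pos y).ne'

theorem p2_deriv_le (y : ℝ) : deriv p2 y ≤ 21 := by
  have h1 : HasDerivAt (fun y : ℝ => 125 / 6 * y) (125 / 6) y := by
    simpa using (hasDerivAt_id y).const_mul (125 / 6 : ℝ)
  have h2 := h1.div (nn_hasDerivAt y) (nn_pos y).ne'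
  have h3 : deriv p2 y = _ := h2.deriv
  rw [h3]
  have h4 := nn_pos y
  have h5 := one_le_nn y
  rw [div_le_iff₀ (by positivity)]
  have h6 : 0 ≤ 125 / 6 * y * ((125 / 6) ^ 2 * y / nn y) := by
    have : 125 / 6 * y * ((125 / 6) ^ 2 * y / nn y) = (125 / 6) ^ 3 * y ^ 2 / nn y := by ring
    rw [this]; positivity
  nlinarith

theorem p_norm (y : ℝ) : p1 y ^ 2 + p2 y ^ 2 = 1 := by
  have h1 := nn_sq y
  have h2 := nn_pos y
  unfold p1 p2
  rw [div_pow, div_pow, ← add_div, div_eq_one_iff_eq (by positivity), h1]; ring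

end Pool.Agent.TH584.HU
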