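import Pool.Agent.TH584.HU.Wt

set_option autoImplicit false

open MeasureTheory Set Metric Filter Topology
open scoped ENNReal Real

noncomputable section

namespace Pool.Agent.TH584.HU

open Pool.Agent.TH304.MI Pool.Agent.TH703.HU

/-- Entry abscissa. -/
def s0 (m : ℕ) : ℝ := 1 / 2 + 1 / 20 / √m

/-- Level function of the parabola. -/
def ll (m : ℕ) (x : ℂ) : ℝ := s0 m + 3 / 5 - 125 / 12 * x.im ^ 2 - x.re

/-- Cutoff at the entry. -/
def zt (m : ℕ) (x : ℂ) : ℝ := Real.smoothTransition (1 + 200 * √m * (x.re - s0 m))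

/-- Its derivative. -/
def dz (m : ℕ) (x : ℂ) : ℝ :=
  deriv Real.smoothTransition (1 + 200 * √m * (x.re - s0 m)) * (200 * √m)

/-- The cutoff. -/
def ch (m : ℕ) (η : ℝ) (x : ℂ) : ℝ := th η (ll m x) * zt m x

/-- The calibrating field. -/
def XF (x : ℂ) : ℂ := ⟨p1 x.im, p2 x.im⟩

/-- The truncated weight. -/
def WW (m : ℕ) (ε : ℝ) (x : ℂ) : ℝ := H ε (wt m x)

/-- The test field. -/
def YY (m : ℕ) (η ε : ℝ) (Y1 : ℂ → ℂ) (x : ℂ) : ℂ :=
  (1 - ch m η x) • Y1 x - (ch m η x * WW m ε x) • XF x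

theorem ll_contDiff (m : ℕ) : ContDiff ℝ 1 (ll m) := by
  unfold ll
  have h1 : ContDiff ℝ 1 fun x : ℂ => x.im := Complex.imCLM.contDiff
  have h2 : ContDiff ℝ 1 fun x : ℂ => x.re := Complex.reCLM.contDiff
  fun_prop

theorem ll_hasFDerivAt (m : ℕ) (x : ℂ) :
    HasFDerivAt (ll m) (-Complex.reCLM - (125 / 6 * x.im) • Complex.imCLM) x := by
  have h1 : HasFDerivAt (fun x : ℂ => x.im) Complex.imCLM x := Complex.imCLM.hasFDerivAt
  have h2 : HasFDerivAt (fun x : ℂ => x.re) Complex.reCLM x := Complex.reCLM.hasFDerivAt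
  have h3 : HasFDerivAt (ll m) _ x :=
    ((((h1.pow 2).const_mul (125 / 12 : ℝ)).const_sub (s0 m + 3 / 5)).sub h2)
  refine h3.congr_fderiv (ContinuousLinearMap.ext fun v => ?_)
  simp
  ring

theorem zt_contDiff (m : ℕ) : ContDiff ℝ 1 (zt m) := by
  unfold zt
  have h2 : ContDiff ℝ 1 fun x : ℂ => x.re := Complex.reCLM.contDiff
  exact (Real.smoothTransition.contDiff (n := 1)).comp (by fun_prop)

theorem zt_hasFDerivAt (m : ℕ) (x : ℂ) :
    HasFDerivAt (zt m) (dz m x • Complex.reCLM) x := by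
  have h2 : HasFDerivAt (fun x : ℂ => x.re) Complex.reCLM x := Complex.reCLM.hasFDerivAt
  have h3 : HasFDerivAt (fun x : ℂ => 1 + 200 * √(m : ℝ) * (x.re - s0 m))
      ((200 * √(m : ℝ)) • Complex.reCLM) x := by
    have := ((h2.sub_const (s0 m)).const_mul (200 * √(m : ℝ))).const_add 1
    exact this
  have h4 : HasDerivAt Real.smoothTransition
      (deriv Real.smoothTransition (1 + 200 * √m * (x.re - s0 m)))
      (1 + 200 * √m * (x.re - s0 m)) :=
    ((Real.smoothTransition.contDiff (n := 1)).differentiable (by norm_num) _).hasDerivAt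
  have h5 := h4.comp_hasFDerivAt x h3
  rw [smul_smul] at h5
  exact h5

theorem zt_nonneg (m : ℕ) (x : ℂ) : 0 ≤ zt m x := Real.smoothTransition.nonneg _

theorem zt_le_one (m : ℕ) (x : ℂ) : zt m x ≤ 1 := Real.smoothTransition.le_one _

theorem zt_one {m : ℕ} {x : ℂ} (hx : s0 m ≤ x.re) : zt m x = 1 := by
  refine Real.smoothTransition.one_of_one_le ?_
  have : 0 ≤ 200 * √(m : ℝ) * (x.re - s0 m) := mul_nonneg (by positivity) (by linarith)
  linarith

theorem zt_zero {m : ℕ} (hm : 1 ≤ m) {x : ℂ} (hx : x.re ≤ s0 m - 1 / 200 / √m) : zt m x = 0 := by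
  refine Real.smoothTransition.zero_of_nonpos ?_
  have hs : 0 < √(m : ℝ) := Real.sqrt_pos.2 (by exact_mod_cast hm)
  have : 200 * √(m : ℝ) * (x.re - s0 m) ≤ 200 * √(m : ℝ) * (-(1 / 200 / √m)) :=
    mul_le_mul_of_nonneg_left (by linarith) (by positivity)
  have e : 200 * √(m : ℝ) * (-(1 / 200 / √m)) = -1 := by field_simp
  linarith

theorem dz_zero {m : ℕ} (hm : 1 ≤ m) {x : ℂ} (hx : 1 / 100 / √m ≤ |x.re - s0 m|) : dz m x = 0 := by
  have hs : 0 < √(m : ℝ) := Real.sqrt_pos.2 (by exact_mod_cast hm)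
  have e : 200 * √(m : ℝ) * (1 / 100 / √m) = 2 := by field_simp; norm_num
  unfold dz
  rw [mul_eq_zero]; left
  rcases le_abs.1 hx with h | h
  · have h1 : 1 < 1 + 200 * √(m : ℝ) * (x.re - s0 m) := by
      have := mul_le_mul_of_nonneg_left h (by positivity : 0 ≤ 200 * √(m : ℝ))
      linarith
    have h2 : Real.smoothTransition =ᶠ[𝓝 (1 + 200 * √(m : ℝ) * (x.re - s0 m))] fun _ => 1 := by
      filter_upwards [lt_mem_nhds h1] with t ht
      exact Real.smoothTransition.one_of_one_le ht.le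
    rw [h2.deriv_eq]; simp
  · have h1 : 1 + 200 * √(m : ℝ) * (x.re - s0 m) < 0 := by
      have := mul_le_mul_of_nonneg_left h (by positivity : 0 ≤ 200 * √(m : ℝ))
      linarith
    have h2 : Real.smoothTransition =ᶠ[𝓝 (1 + 200 * √(m : ℝ) * (x.re - s0 m))] fun _ => 0 := by
      filter_upwards [gt_mem_nhds h1] with t ht
      exact Real.smoothTransition.zero_of_nonpos ht.le
    rw [h2.deriv_eq]; simp

theorem ch_contDiff (m : ℕ) {η : ℝ} (hη : 0 < η) : ContDiff ℝ 1 (ch m η) := by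
  unfold ch
  exact ((th_contDiff hη).comp (ll_contDiff m)).mul (zt_contDiff m)

theorem ch_hasFDerivAt (m : ℕ) {η : ℝ} (hη : 0 < η) (x : ℂ) :
    HasFDerivAt (ch m η) (th η (ll m x) • (dz m x • Complex.reCLM) +
      zt m x • (dth η (ll m x) • (-Complex.reCLM - (125 / 6 * x.im) • Complex.imCLM))) x :=
  ((th_hasDerivAt hη (ll m x)).comp_hasFDerivAt x (ll_hasFDerivAt m x)).mul (zt_hasFDerivAt m x)

theorem ch_nonneg (m : ℕ) {η : ℝ} (hη : 0 < η) (x : ℂ) : 0 ≤ ch m η x :=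
  mul_nonneg (th_nonneg hη _) (zt_nonneg m x)

theorem ch_le_one (m : ℕ) {η : ℝ} (hη : 0 < η) (x : ℂ) : ch m η x ≤ 1 :=
  mul_le_one₀ (th_le_one hη _) (zt_nonneg m x) (zt_le_one m x)

/-- The compact rectangle containing the support of the cutoff. -/
def KC (m : ℕ) : Set ℂ := Icc (s0 m - 1 / 200 / √m) (s0 m + 3 / 5) ×ℂ Icc (-(1 / 4)) (1 / 4)

theorem KC_compact (m : ℕ) : IsCompact (KC m) := isCompact_Icc.reProdIm isCompact_Icc

/-- Above the parabola's foot the ordinate is small. -/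
theorem im_small {m : ℕ} (hm : 1 ≤ m) {x : ℂ} (hl : 0 < ll m x)
    (hr : s0 m - 1 / 100 / √m ≤ x.re) : |x.im| < 1 / 4 := by
  have hs : (1 : ℝ) ≤ √(m : ℝ) := Real.one_le_sqrt.2 (by exact_mod_cast hm)
  have h1 : 1 / 100 / √(m : ℝ) ≤ 1 / 100 := div_le_self (by norm_num) hs
  have h2 : 125 / 12 * x.im ^ 2 < 3 / 5 + 1 / 100 := by unfold ll at hl; linarith
  refine abs_lt_of_sq_lt_sq ?_ (by norm_num)
  nlinarith

theorem mem_KC {m : ℕ} (hm : 1 ≤ m) {x : ℂ} (hl : 0 < ll m x) (hz : zt m x ≠ 0) : x ∈ KC m := by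
  have hs : 0 < √(m : ℝ) := Real.sqrt_pos.2 (by exact_mod_cast hm)
  have h1 : s0 m - 1 / 200 / √m < x.re := by
    by_contra h; exact hz (zt_zero hm (not_lt.1 h))
  have h2 : s0 m - 1 / 100 / √m ≤ x.re := by
    have : 1 / 200 / √(m : ℝ) ≤ 1 / 100 / √(m : ℝ) := by gcongr <;> norm_num
    linarith
  have h3 := abs_lt.1 (im_small hm hl h2)
  refine ⟨⟨h1.le, ?_⟩, ⟨h3.1.le, h3.2.le⟩⟩
  unfold ll at hl
  nlinarith [sq_nonneg x.im]

theorem ch_zero_off {m : ℕ} (hm : 1 ≤ m) (η : ℝ) {x : ℂ} (hx : x ∉ KC m) : ch m η x = 0 := by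
  unfold ch
  by_contra h
  rcases not_or.1 (mt mul_eq_zero.2 h) with ⟨h1, h2⟩
  refine hx (mem_KC hm ?_ h2)
  by_contra h3
  exact h1 (th_of_nonpos (not_lt.1 h3))

theorem XF_eq (x : ℂ) : XF x = (p1 x.im : ℂ) + (p2 x.im : ℂ) * Complex.I := by
  unfold XF; exact Complex.mk_eq_add_mul_I _ _

theorem XF_contDiff : ContDiff ℝ 1 XF := by
  have h1 : ContDiff ℝ 1 fun x : ℂ => x.im := Complex.imCLM.contDiff
  have h2 : ContDiff ℝ 1 fun x : ℂ => ((p1 x.im : ℝ) : ℂ) :=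
    Complex.ofRealCLM.contDiff.comp (p1_contDiff.comp h1)
  have h3 : ContDiff ℝ 1 fun x : ℂ => ((p2 x.im : ℝ) : ℂ) :=
    Complex.ofRealCLM.contDiff.comp (p2_contDiff.comp h1)
  have : XF = fun x : ℂ => (p1 x.im : ℂ) + (p2 x.im : ℂ) * Complex.I := funext XF_eq
  rw [this]
  exact h2.add (h3.mul contDiff_const)

theorem XF_norm (x : ℂ) : ‖XF x‖ = 1 := by
  have h := p_norm x.im
  rw [← sq_eq_sq₀ (norm_nonneg _) zero_le_one, Complex.sq_norm, Complex.normSq_apply]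
  show p1 x.im * p1 x.im + p2 x.im * p2 x.im = 1 ^ 2
  nlinarith

theorem dv2_XF (x : ℂ) : dv2 XF x = deriv p2 x.im := by
  have h1 : HasFDerivAt (fun x : ℂ => x.im) Complex.imCLM x := Complex.imCLM.hasFDerivAt
  have hp1 : HasDerivAt p1 (deriv p1 x.im) x.im :=
    (p1_contDiff.differentiable (by norm_num) _).hasDerivAt
  have hp2 : HasDerivAt p2 (deriv p2 x.im) x.im :=
    (p2_contDiff.differentiable (by norm_num) _).hasDerivAt
  have h2 : HasFDerivAt (fun x : ℂ => ((p1 x.im : ℝ) : ℂ)) _ x :=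
    Complex.ofRealCLM.hasFDerivAt.comp x (hp1.comp_hasFDerivAt x h1)
  have h3 : HasFDerivAt (fun x : ℂ => ((p2 x.im : ℝ) : ℂ)) _ x :=
    Complex.ofRealCLM.hasFDerivAt.comp x (hp2.comp_hasFDerivAt x h1)
  have h4 : HasFDerivAt XF _ x :=
    (h2.add (h3.mul_const Complex.I)).congr_of_eventuallyEq (Eventually.of_forall XF_eq)
  unfold dv2
  rw [h4.fderiv]
  simp

theorem WW_contDiff (c0 : S_C0) {m : ℕ} (hm : 1 ≤ m) {ε : ℝ} (hε : 0 < ε) :
    ContDiff ℝ 1 (WW m ε) := by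
  obtain ⟨-, hcw, hw0, -, hD, hc, -⟩ := c0 m hm
  rw [contDiff_iff_contDiffAt]
  intro x
  by_cases hx : x ∈ DD
  · have h1 : ContDiffAt ℝ 1 (wt m) x := hc.contDiffAt (isOpen_DD.mem_nhds hx)
    have h2 : 0 < wt m x := by rw [← hD] at hx; exact hx
    exact (q_contDiff.contDiffAt.comp x (h1.sub contDiffAt_const)).div h1 h2.ne'
  · have h2 : wt m x = 0 := by
      rw [← hD] at hx
      exact le_antisymm (not_lt.1 hx) (hw0 x)
    have h3 : WW m ε =ᶠ[𝓝 x] fun _ => 0 := by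
      have : ∀ᶠ y in 𝓝 x, wt m y < ε := hcw.continuousAt.eventually (gt_mem_nhds (by rw [h2]; exact hε))
      filter_upwards [this] with y hy
      unfold WW H
      rw [q_of_nonpos (by linarith), zero_div]
    exact contDiffAt_const.congr_of_eventuallyEq h3

/-- The key one-sided derivative estimate for the truncated weight. -/
theorem WW_der (c0 : S_C0) {m : ℕ} (hm : 1 ≤ m) {ε : ℝ} (hε : 0 < ε) {Λ : ℝ}
    (hΛ : 0 ≤ Λ) (hbig : 20 * (Λ + 22) ≤ √(m : ℝ)) {x : ℂ} (hx : x ∈ KC m) :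
    (Λ + 22) * WW m ε x ≤
      -(fderiv ℝ (WW m ε) x 1 * p1 x.im + fderiv ℝ (WW m ε) x Complex.I * p2 x.im) := by
  obtain ⟨-, hcw, hw0, -, hD, hc, -⟩ := c0 m hm
  have hs : 0 < √(m : ℝ) := Real.sqrt_pos.2 (by exact_mod_cast hm)
  by_cases hxD : x ∈ DD
  · have hw : 0 < wt m x := by rw [← hD] at hxD; exact hxD
    have hd : HasFDerivAt (WW m ε) (h ε (wt m x) • fderiv ℝ (wt m) x) x :=
      (H_hasDerivAt ε hw).comp_hasFDerivAt x (wt_diff c0 hm hxD).hasFDerivAt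
    rw [hd.fderiv]
    have hre : 1 / 2 + 9 / 200 / √(m : ℝ) ≤ x.re := by
      have := hx.1.1
      unfold s0 at this
      have e : 1 / 20 / √(m : ℝ) - 1 / 200 / √(m : ℝ) = 9 / 200 / √(m : ℝ) := by
        field_simp; norm_num
      linarith
    have hpos : 0 < 9 / 200 / √(m : ℝ) := by positivity
    have h1 := wt_re c0 hm hxD (by linarith)
    have h2 := wt_im c0 hm hxD
    have hh := h_nonneg hε.le hw
    have hH := H_le_h hε.le hw
    have hN := nn_pos x.im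
    have hN6 : nn x.im ≤ 6 := by
      have e1 := nn_sq x.im
      have e2 : x.im ^ 2 ≤ (1 / 4) ^ 2 := sq_le_sq' hx.2.1 hx.2.2
      nlinarith
    have h3 : 8 * m * (x.re - 1 / 2) ≥ 36 / 100 * √(m : ℝ) := by
      have e1 : (m : ℝ) = √(m : ℝ) * √(m : ℝ) := (Real.mul_self_sqrt (by positivity)).symm
      have e0 : ∀ s : ℝ, 0 < s → 8 * (s * s) * (9 / 200 / s) = 36 / 100 * s := by
        intro s hs; field_simp; norm_num
      have e2 : 8 * (m : ℝ) * (9 / 200 / √(m : ℝ)) = 36 / 100 * √(m : ℝ) := by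
        have := e0 _ hs; rwa [← e1] at this
      have e3 : 8 * (m : ℝ) * (9 / 200 / √(m : ℝ)) ≤ 8 * m * (x.re - 1 / 2) :=
        mul_le_mul_of_nonneg_left (by linarith) (by positivity)
      linarith
    have h4 : 36 / 100 * √(m : ℝ) * wt m x ≤ -fderiv ℝ (wt m) x 1 := by
      have := mul_le_mul_of_nonneg_right h3 hw.le
      linarith
    have h5 : 0 ≤ -(fderiv ℝ (wt m) x Complex.I * p2 x.im) := by
      unfold p2
      have : fderiv ℝ (wt m) x Complex.I * (125 / 6 * x.im / nn x.im) =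
        (fderiv ℝ (wt m) x Complex.I * x.im) * (125 / 6 / nn x.im) := by ring
      rw [this]
      have : 0 ≤ -(fderiv ℝ (wt m) x Complex.I * x.im) * (125 / 6 / nn x.im) :=
        mul_nonneg (by linarith) (by positivity)
      linarith
    have h6 : (Λ + 22) * wt m x ≤ -fderiv ℝ (wt m) x 1 * p1 x.im := by
      unfold p1
      rw [mul_one_div, le_div_iff₀ hN]
      have e1 : (Λ + 22) * wt m x * nn x.im ≤ (Λ + 22) * wt m x * 6 :=
        mul_le_mul_of_nonneg_left hN6 (by positivity)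
      have e2 : (Λ + 22) * wt m x * 6 ≤ 36 / 100 * √(m : ℝ) * wt m x := by
        nlinarith
      linarith
    have h7 : WW m ε x ≤ h ε (wt m x) * wt m x := hH
    calc (Λ + 22) * WW m ε x ≤ (Λ + 22) * (h ε (wt m x) * wt m x) :=
          mul_le_mul_of_nonneg_left h7 (by positivity)
      _ = h ε (wt m x) * ((Λ + 22) * wt m x) := by ring
      _ ≤ h ε (wt m x) * (-fderiv ℝ (wt m) x 1 * p1 x.im +
            -(fderiv ℝ (wt m) x Complex.I * p2 x.im)) :=
          mul_le_mul_of_nonneg_left (by linarith) hh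
      _ = _ := by simp; ring
  · have h2 : wt m x = 0 := by
      rw [← hD] at hxD
      exact le_antisymm (not_lt.1 hxD) (hw0 x)
    have h3 : WW m ε =ᶠ[𝓝 x] fun _ => 0 := by
      have : ∀ᶠ y in 𝓝 x, wt m y < ε := hcw.continuousAt.eventually (gt_mem_nhds (by rw [h2]; exact hε))
      filter_upwards [this] with y hy
      unfold WW H
      rw [q_of_nonpos (by linarith), zero_div]
    rw [h3.fderiv_eq, h3.eq_of_nhds]
    simp

/-- The pointwise lower bound. -/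
theorem pt (c0 : S_C0) {m : ℕ} (hm : 1 ≤ m) {ε η : ℝ} (hε : 0 < ε) (hη : 0 < η) {Λ : ℝ}
    (hΛ : 0 ≤ Λ) (hbig : 20 * (Λ + 22) ≤ √(m : ℝ)) {Y1 : ℂ → ℂ} (hY : TW (wt m) Y1) {x : ℂ}
    (hx : th η (ll m x) * dz m x = 0) :
    (1 - ch m η x) * dv2 Y1 x + (Λ + 1) * (ch m η x * wt m x) -
      2 * ε * ((Λ + 1) * ch m η x + nn x.im * (zt m x * dth η (ll m x))) ≤
      dv2 (YY m η ε Y1) x := by
  obtain ⟨-, hcw, hw0, -, hD, hc, -⟩ := c0 m hm
  have hch := ch_hasFDerivAt m hη x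
  set ch' := th η (ll m x) • (dz m x • Complex.reCLM) +
      zt m x • (dth η (ll m x) • (-Complex.reCLM - (125 / 6 * x.im) • Complex.imCLM)) with hch'
  have hWd : DifferentiableAt ℝ (WW m ε) x := (WW_contDiff c0 hm hε).differentiable (by norm_num) x
  have hYd : DifferentiableAt ℝ Y1 x := hY.cd.differentiable (by norm_num) x
  have hXd : DifferentiableAt ℝ XF x := XF_contDiff.differentiable (by norm_num) x
  have e1 : HasFDerivAt (fun z => 1 - ch m η z) (-ch') x := hch.const_sub 1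
  have e2 : HasFDerivAt (fun z => ch m η z * WW m ε z) _ x := hch.mul hWd.hasFDerivAt
  have e3 : dv2 (YY m η ε Y1) x = dv2 (fun z => (1 - ch m η z) • Y1 z) x -
      dv2 (fun z => (ch m η z * WW m ε z) • XF z) x :=
    dv2_sub (e1.differentiableAt.smul hYd) (e2.differentiableAt.smul hXd)
  rw [e3, dv2_smul e1 hYd, dv2_smul e2 hXd, dv2_XF]
  have f1 : ch' 1 = -(zt m x * dth η (ll m x)) := by
    simp [hch', hx]
  have f2 : ch' Complex.I = -(zt m x * dth η (ll m x)) * (125 / 6 * x.im) := by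
    simp [hch']; ring
  have g1 : (XF x).re = p1 x.im := rfl
  have g2 : (XF x).im = p2 x.im := rfl
  simp only [ContinuousLinearMap.neg_apply, ContinuousLinearMap.add_apply,
    ContinuousLinearMap.smul_apply, smul_eq_mul, f1, f2, g1, g2]
  set W := WW m ε x
  set w := wt m x
  set D := zt m x * dth η (ll m x) with hD'
  have hD0 : 0 ≤ D := mul_nonneg (zt_nonneg _ _) (dth_nonneg hη _)
  have hc0 : 0 ≤ ch m η x := ch_nonneg m hη x
  have hW1 : w - 2 * ε ≤ W := le_H hε.le (hw0 x)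
  have hW0 : 0 ≤ W := H_nonneg _ (hw0 x)
  have hN := nn_pos x.im
  have hp : p1 x.im + 125 / 6 * x.im * p2 x.im = nn x.im := by
    unfold p1 p2
    have := nn_sq x.im
    field_simp
    nlinarith
  -- Cauchy-Schwarz
  have hCS : -(nn x.im * w) ≤ (Y1 x).re + 125 / 6 * x.im * (Y1 x).im := by
    have a1 : ‖Y1 x‖ ≤ w := hY.le x
    have a2 : ‖Y1 x‖ ^ 2 = (Y1 x).re * (Y1 x).re + (Y1 x).im * (Y1 x).im := by
      rw [Complex.sq_norm, Complex.normSq_apply]
    have a3 : ((Y1 x).re + 125 / 6 * x.im * (Y1 x).im) ^ 2 ≤ (nn x.im * w) ^ 2 := by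
      have a4 : ‖Y1 x‖ ^ 2 ≤ w ^ 2 := pow_le_pow_left₀ (norm_nonneg _) a1 2
      have a5 := nn_sq x.im
      rw [mul_pow, a5]
      have a6 : 0 ≤ 1 + (125 / 6 * x.im) ^ 2 := by positivity
      have a7 := mul_le_mul_of_nonneg_left a4 a6
      rw [a2] at a7
      nlinarith [sq_nonneg ((Y1 x).im - 125 / 6 * x.im * (Y1 x).re)]
    exact (abs_le.1 (abs_le_of_sq_le_sq a3 (mul_nonneg hN.le (hw0 x)))).1
  have hder : ch m η x * ((Λ + 22) * W) ≤ ch m η x *
      -(fderiv ℝ (WW m ε) x 1 * p1 x.im + fderiv ℝ (WW m ε) x Complex.I * p2 x.im) := by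
    by_cases hz : ch m η x = 0
    · simp [hz]
    · refine mul_le_mul_of_nonneg_left (WW_der c0 hm hε hΛ hbig ?_) hc0
      by_contra hK
      exact hz (ch_zero_off hm η hK)
  have hdiv : ch m η x * W * deriv p2 x.im ≤ ch m η x * W * 21 :=
    mul_le_mul_of_nonneg_left (p2_deriv_le _) (by positivity)
  have k1 : ch m η x * ((Λ + 1) * (w - 2 * ε)) ≤ ch m η x * ((Λ + 1) * W) :=
    mul_le_mul_of_nonneg_left (mul_le_mul_of_nonneg_left hW1 (by positivity)) hc0
  have k2 : D * (nn x.im * (w - 2 * ε)) ≤ D * (nn x.im * W) :=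
    mul_le_mul_of_nonneg_left (mul_le_mul_of_nonneg_left hW1 hN.le) hD0
  have k3 : D * (-(nn x.im * w)) ≤ D * ((Y1 x).re + 125 / 6 * x.im * (Y1 x).im) :=
    mul_le_mul_of_nonneg_left hCS hD0
  have k4 : D * W * (p1 x.im + 125 / 6 * x.im * p2 x.im) = D * W * nn x.im := by rw [hp]
  nlinarith [hder, hdiv, k1, k2, k3, k4]

end Pool.Agent.TH584.HU
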