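import Pool.Agent.TH584.HU.Calc

set_option autoImplicit false

open MeasureTheory Set Metric Filter Topology
open scoped ENNReal Real

noncomputable section

namespace Pool.Agent.TH584.HU

open Pool.Agent.TH304.MI Pool.Agent.TH703.HU

theorem tail (m : ℕ) {t β : ℝ} (h0 : 0 ≤ t) (h1 : t ≤ β) (h2 : β ≤ 1 / 2) :
    8 * m * t * ∫ u in t..β, (1 - 4 * u ^ 2) ^ m ≤ (1 - 4 * t ^ 2) ^ m := by
  rcases m with _ | k
  · simp
  have hd : ∀ u : ℝ, HasDerivAt (fun u : ℝ => -(1 - 4 * u ^ 2) ^ (k + 1))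
      (8 * (k + 1) * u * (1 - 4 * u ^ 2) ^ k) u := by
    intro u
    have e1 : HasDerivAt (fun u : ℝ => 1 - 4 * u ^ 2) (-(8 * u)) u := by
      have := (((hasDerivAt_id' u).pow 2).const_mul (4 : ℝ)).const_sub 1
      refine this.congr_deriv ?_
      push_cast; ring
    refine (e1.pow (k + 1)).neg.congr_deriv ?_
    rw [Nat.add_sub_cancel]
    push_cast; ring
  have hi : ∫ u in t..β, 8 * ((k : ℝ) + 1) * u * (1 - 4 * u ^ 2) ^ k =
      (-(1 - 4 * β ^ 2) ^ (k + 1)) - (-(1 - 4 * t ^ 2) ^ (k + 1)) :=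
    intervalIntegral.integral_eq_sub_of_hasDerivAt (fun u _ => hd u)
      ((by fun_prop : Continuous fun u : ℝ => 8 * ((k : ℝ) + 1) * u * (1 - 4 * u ^ 2) ^ k).intervalIntegrable _ _)
  have hm : ∫ u in t..β, 8 * (((k + 1 : ℕ) : ℝ)) * t * (1 - 4 * u ^ 2) ^ (k + 1) ≤
      ∫ u in t..β, 8 * ((k : ℝ) + 1) * u * (1 - 4 * u ^ 2) ^ k := by
    refine intervalIntegral.integral_mono_on h1
      ((by fun_prop : Continuous fun u : ℝ => 8 * (((k + 1 : ℕ) : ℝ)) * t * (1 - 4 * u ^ 2) ^ (k + 1)).intervalIntegrable _ _)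
      ((by fun_prop : Continuous fun u : ℝ => 8 * ((k : ℝ) + 1) * u * (1 - 4 * u ^ 2) ^ k).intervalIntegrable _ _) ?_
    intro u hu
    have hu0 : 0 ≤ u := h0.trans hu.1
    have hu1 : u ≤ 1 / 2 := hu.2.trans h2
    have a0 : 0 ≤ 1 - 4 * u ^ 2 := by nlinarith
    have a1 : 1 - 4 * u ^ 2 ≤ 1 := by nlinarith [sq_nonneg u]
    have a2 : 0 ≤ (1 - 4 * u ^ 2) ^ k := pow_nonneg a0 k
    rw [pow_succ]
    push_cast
    have a3 : (1 - 4 * u ^ 2) ^ k * (1 - 4 * u ^ 2) ≤ (1 - 4 * u ^ 2) ^ k := by nlinarith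
    have a4 : t * ((1 - 4 * u ^ 2) ^ k * (1 - 4 * u ^ 2)) ≤ u * (1 - 4 * u ^ 2) ^ k :=
      mul_le_mul hu.1 a3 (by positivity) hu0
    have a5 : (0 : ℝ) ≤ 8 * ((k : ℝ) + 1) := by positivity
    nlinarith
  rw [intervalIntegral.integral_const_mul] at hm
  have hb : 0 ≤ (1 - 4 * β ^ 2) ^ (k + 1) := pow_nonneg (by nlinarith) _
  rw [hi] at hm
  linarith

theorem isOpen_DD : IsOpen DD := by
  unfold DD
  exact isOpen_lt (by fun_prop) continuous_const

theorem mk_hasDerivAt_re (y s : ℝ) : HasDerivAt (fun t : ℝ => (⟨t, y⟩ : ℂ)) 1 s := by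
  have : (fun t : ℝ => (⟨t, y⟩ : ℂ)) = fun t : ℝ => (t : ℂ) + y * Complex.I := by
    ext t; exact Complex.mk_eq_add_mul_I t y
  rw [this]
  simpa using (Complex.ofRealCLM.hasDerivAt (x := s)).add_const ((y : ℂ) * Complex.I)

theorem mk_hasDerivAt_im (a s : ℝ) : HasDerivAt (fun t : ℝ => (⟨a, t⟩ : ℂ)) Complex.I s := by
  have : (fun t : ℝ => (⟨a, t⟩ : ℂ)) = fun t : ℝ => (a : ℂ) + t * Complex.I := by
    ext t; exact Complex.mk_eq_add_mul_I a t
  rw [this]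
  have := ((Complex.ofRealCLM.hasDerivAt (x := s)).mul_const Complex.I).const_add (a : ℂ)
  simpa using this

theorem wt_diff (c0 : S_C0) {m : ℕ} (hm : 1 ≤ m) {x : ℂ} (hx : x ∈ DD) :
    DifferentiableAt ℝ (wt m) x := by
  obtain ⟨-, -, -, -, -, hc, -⟩ := c0 m hm
  exact (hc.contDiffAt (isOpen_DD.mem_nhds hx)).differentiableAt (by norm_num)

theorem wt_re (c0 : S_C0) {m : ℕ} (hm : 1 ≤ m) {x : ℂ} (hx : x ∈ DD) (hr : 1 / 2 < x.re) :
    fderiv ℝ (wt m) x 1 ≤ -(8 * m * (x.re - 1 / 2) * wt m x) := by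
  obtain ⟨hN, -, -, -, -, -, -, -, -, -, -, hf⟩ := c0 m hm
  have hdx := (wt_diff c0 hm hx).hasFDerivAt
  have e1 : HasDerivAt (fun t : ℝ => wt m ⟨t, x.im⟩) (fderiv ℝ (wt m) x 1) x.re :=
    HasFDerivAt.comp_hasDerivAt (f := fun t : ℝ => (⟨t, x.im⟩ : ℂ)) x.re hdx
      (mk_hasDerivAt_re x.im x.re)
  have hcont : Continuous fun u : ℝ => (1 - 4 * u ^ 2) ^ m := by fun_prop
  have e2 : HasDerivAt (fun t : ℝ => (∫ u in (t - 1 / 2)..(1 / 2 - |x.im|), (1 - 4 * u ^ 2) ^ m) / NN m)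
      (-(1 - 4 * (x.re - 1 / 2) ^ 2) ^ m / NN m) x.re := by
    have := intervalIntegral.integral_hasDerivAt_left
      (hcont.intervalIntegrable (x.re - 1 / 2) (1 / 2 - |x.im|))
      (hcont.stronglyMeasurableAtFilter _ _) hcont.continuousAt
    exact (this.comp_sub_const x.re (1 / 2)).div_const _
  have e3 : HasDerivAt (fun t : ℝ => wt m ⟨t, x.im⟩)
      (-(1 - 4 * (x.re - 1 / 2) ^ 2) ^ m / NN m) x.re := by
    refine e2.congr_of_eventuallyEq ?_
    have hc : ContinuousAt (fun t : ℝ => (⟨t, x.im⟩ : ℂ)) x.re :=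
      (mk_hasDerivAt_re x.im x.re).continuousAt
    filter_upwards [hc.preimage_mem_nhds (isOpen_DD.mem_nhds hx), lt_mem_nhds hr] with t ht ht2
    rw [hf _ ht]
    simp only
    rw [abs_of_pos (by linarith : (0 : ℝ) < t)]
  rw [e1.unique e3, hf x hx, abs_of_pos (by linarith : 0 < x.re)]
  have hx' : |x.re| + |x.im| < 1 := hx
  rw [abs_of_pos (by linarith : 0 < x.re)] at hx'
  have ht := tail m (t := x.re - 1 / 2) (β := 1 / 2 - |x.im|) (by linarith) (by linarith)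
    (by have := abs_nonneg x.im; linarith)
  rw [neg_div, neg_le_neg_iff, ← mul_div_assoc]
  exact div_le_div_of_nonneg_right ht hN.le

theorem wt_im (c0 : S_C0) {m : ℕ} (hm : 1 ≤ m) {x : ℂ} (hx : x ∈ DD) :
    fderiv ℝ (wt m) x Complex.I * x.im ≤ 0 := by
  obtain ⟨-, -, -, -, -, -, -, hsw, -, hev, han, -⟩ := c0 m hm
  have hdx := (wt_diff c0 hm hx).hasFDerivAt
  have e1 : HasDerivAt (fun t : ℝ => wt m ⟨x.re, t⟩) (fderiv ℝ (wt m) x Complex.I) x.im :=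
    HasFDerivAt.comp_hasDerivAt (f := fun t : ℝ => (⟨x.re, t⟩ : ℂ)) x.im hdx
      (mk_hasDerivAt_im x.re x.im)
  have hanti : AntitoneOn (fun t : ℝ => wt m ⟨x.re, t⟩) (Ioi 0) := by
    intro s hs t ht hst
    simp only
    rw [hsw t x.re, hsw s x.re]
    exact han s t x.re (le_of_lt hs) hst
  have key : ∀ y d : ℝ, 0 < y → HasDerivAt (fun t : ℝ => wt m ⟨x.re, t⟩) d y → d ≤ 0 := by
    intro y d hy hd
    have h1 := AntitoneOn.derivWithin_nonpos (x := y) hanti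
    rwa [derivWithin_of_isOpen isOpen_Ioi hy, hd.deriv] at h1
  rcases lt_trichotomy x.im 0 with hy | hy | hy
  · have e2 : HasDerivAt (fun t : ℝ => wt m ⟨x.re, t⟩) (-(fderiv ℝ (wt m) x Complex.I)) (-x.im) := by
      have e3 : HasDerivAt (fun t : ℝ => wt m ⟨x.re, t⟩) (fderiv ℝ (wt m) x Complex.I) (-(-x.im)) := by
        rwa [neg_neg]
      have e4 := HasDerivAt.scomp (-x.im) e3 (hasDerivAt_neg (-x.im))
      have e5 : ((fun t : ℝ => wt m ⟨x.re, t⟩) ∘ Neg.neg) = fun t : ℝ => wt m ⟨x.re, t⟩ := by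
        ext t; exact hev x.re t
      rw [e5] at e4
      simpa using e4
    have := key _ _ (by linarith) e2
    nlinarith
  · rw [hy, mul_zero]
  · have := key _ _ hy e1
    nlinarith

/-! ## `dv2` -/

theorem dv2_smul {c : ℂ → ℝ} {Z : ℂ → ℂ} {c' : ℂ →L[ℝ] ℝ} {x : ℂ} (hc : HasFDerivAt c c' x)
    (hZ : DifferentiableAt ℝ Z x) : dv2 (fun z => c z • Z z) x =
      c x * dv2 Z x + (c' 1 * (Z x).re + c' Complex.I * (Z x).im) := by
  have h1 : HasFDerivAt (fun z => c z • Z z) _ x := hc.smul hZ.hasFDerivAt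
  unfold dv2
  rw [h1.fderiv]
  simp
  ring

theorem dv2_sub {Y Z : ℂ → ℂ} {x : ℂ} (hY : DifferentiableAt ℝ Y x)
    (hZ : DifferentiableAt ℝ Z x) : dv2 (fun z => Y z - Z z) x = dv2 Y x - dv2 Z x := by
  have h1 : HasFDerivAt (fun z => Y z - Z z) _ x := hY.hasFDerivAt.sub hZ.hasFDerivAt
  unfold dv2
  rw [h1.fderiv]
  simp
  ring

theorem dv2_continuous {Y : ℂ → ℂ} (hY : ContDiff ℝ 1 Y) : Continuous (dv2 Y) := by
  have h := hY.continuous_fderiv (by norm_num)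
  unfold dv2
  exact (Complex.continuous_re.comp (h.clm_apply continuous_const)).add
    (Complex.continuous_im.comp (h.clm_apply continuous_const))

theorem dv2_zero_of_not_mem {Y : ℂ → ℂ} {x : ℂ} (hx : x ∉ tsupport Y) : dv2 Y x = 0 := by
  have : fderiv ℝ Y x = 0 := by
    by_contra hne
    exact hx (support_fderiv_subset ℝ hne)
  simp [dv2, this]

theorem dv2_hasCompactSupport {Y : ℂ → ℂ} (hY : HasCompactSupport Y) : HasCompactSupport (dv2 Y) := by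
  refine HasCompactSupport.intro hY ?_
  intro x hx
  exact dv2_zero_of_not_mem hx

theorem dv2_integrable {Y : ℂ → ℂ} (hY : ContDiff ℝ 1 Y) (hc : HasCompactSupport Y) :
    Integrable (dv2 Y) :=
  (dv2_continuous hY).integrable_of_hasCompactSupport (dv2_hasCompactSupport hc)

end Pool.Agent.TH584.HU
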